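import Pool.Agent.K1H8.AL.MuMu
import Pool.Agent.H705R2.MLogF

/-!
# Project AL, piece M
-/

set_option autoImplicit false

namespace Pool.Agent.K1H8.AL

theorem t_M : Pool.Agent.H295R3.W.TaskM := M_of Pool.Agent.H705R2.MSW.swMu

end Pool.Agent.K1H8.AL
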