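import Pool.Agent.H295R3.W.Stmts
import Pool.Agent.H807R2.DavIface
import Pool.Agent.H383.OM.Hyp

/-!
# Project AL, piece M: the summatory function of `μ * μ`
-/

set_option autoImplicit false

open Finset ArithmeticFunction

namespace Pool.Agent.K1H8.AL

open Pool.Agent.H295R3.W

/-- the Möbius function, real valued -/
noncomputable abbrev mu : ArithmeticFunction ℝ :=
  ((moebius : ArithmeticFunction ℤ) : ArithmeticFunction ℝ)

theorem mu_abs (n : ℕ) : |mu n| ≤ 1 := by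
  rw [intCoe_apply]
  exact_mod_cast abs_moebius_le_one

/-- the Mertens function -/
noncomputable def Mt (m : ℕ) : ℝ := ∑ n ∈ Ioc 0 m, mu n

theorem Mt_triv (m : ℕ) : |Mt m| ≤ m := by
  unfold Mt
  refine (abs_sum_le_sum_abs _ _).trans ((sum_le_sum fun n _ => mu_abs n).trans ?_)
  simp

theorem Mt_eq (m : ℕ) : ∑ n ∈ (range (m + 1)).filter (fun n => n % 1 = 0), ((moebius n : ℤ) : ℝ) =
    Mt m := by
  rw [filter_true_of_mem (fun n _ => Nat.mod_one n), sum_range_succ']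
  unfold Mt
  rw [show (moebius 0 : ℤ) = 0 from by simp, Int.cast_zero, add_zero]
  have h1 : Ioc 0 m = (range m).image (fun n => n + 1) := by
    ext n
    simp only [mem_Ioc, mem_image, mem_range]
    constructor
    · rintro ⟨ha, hb⟩
      exact ⟨n - 1, by omega, by omega⟩
    · rintro ⟨k, hk, rfl⟩
      omega
  rw [h1, sum_image (fun a _ b _ hab => by simpa using hab)]
  exact sum_congr rfl fun n _ => by rw [intCoe_apply]

theorem Mt_bound (h : Pool.Agent.H807R2.SWMu) (A : ℕ) : ∃ C : ℝ, 0 < C ∧ ∀ m : ℕ,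
    |Mt m| ≤ C * m / (Real.log (m + 2)) ^ A := by
  obtain ⟨N₀, h0⟩ := h A 0
  have hlN : 0 < Real.log ((N₀ : ℝ) + 2) := Real.log_pos (by
    have : (0 : ℝ) ≤ N₀ := Nat.cast_nonneg _
    linarith)
  refine ⟨2 * 2 ^ A + Real.log ((N₀ : ℝ) + 2) ^ A, by positivity, fun m => ?_⟩
  rcases Nat.eq_zero_or_pos m with rfl | hm
  · simp [Mt]
  have hm1 : (1 : ℝ) ≤ m := by exact_mod_cast hm
  have hl2 : 0 < Real.log ((m : ℝ) + 2) := Real.log_pos (by linarith)
  have hl1 : 0 < Real.log ((m : ℝ) + 1) := Real.log_pos (by linarith)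
  by_cases hN : N₀ ≤ m + 1
  · have h1 := h0 (m + 1) hN 1 0 le_rfl (by simp)
    rw [Mt_eq] at h1
    push_cast at h1
    have h2 : Real.log ((m : ℝ) + 2) ≤ 2 * Real.log ((m : ℝ) + 1) := by
      rw [← Real.log_rpow (by linarith)]
      apply Real.log_le_log (by linarith)
      have : ((m : ℝ) + 1) ^ (2 : ℝ) = ((m : ℝ) + 1) ^ 2 := Real.rpow_two _
      rw [this]
      nlinarith
    have h3 : Real.log ((m : ℝ) + 2) ^ A ≤ 2 ^ A * Real.log ((m : ℝ) + 1) ^ A := by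
      rw [← mul_pow]
      exact pow_le_pow_left₀ hl2.le h2 A
    refine h1.trans ?_
    rw [div_le_div_iff₀ (by positivity) (by positivity)]
    have h4 : (0 : ℝ) ≤ Real.log ((N₀ : ℝ) + 2) ^ A * m * Real.log ((m : ℝ) + 1) ^ A := by
      positivity
    calc ((m : ℝ) + 1) * Real.log ((m : ℝ) + 2) ^ A
        ≤ (2 * m) * (2 ^ A * Real.log ((m : ℝ) + 1) ^ A) := by
          apply mul_le_mul (by linarith) h3 (by positivity) (by positivity)
      _ ≤ (2 * 2 ^ A + Real.log ((N₀ : ℝ) + 2) ^ A) * m * Real.log ((m : ℝ) + 1) ^ A := by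
          linarith
  · push Not at hN
    refine (Mt_triv m).trans ?_
    rw [le_div_iff₀ (by positivity)]
    have h2 : Real.log ((m : ℝ) + 2) ≤ Real.log ((N₀ : ℝ) + 2) := by
      apply Real.log_le_log (by linarith)
      have : (m : ℝ) ≤ N₀ := by exact_mod_cast (by omega : m ≤ N₀)
      linarith
    have h3 : Real.log ((m : ℝ) + 2) ^ A ≤ Real.log ((N₀ : ℝ) + 2) ^ A :=
      pow_le_pow_left₀ hl2.le h2 A
    calc (m : ℝ) * Real.log ((m : ℝ) + 2) ^ A ≤ m * Real.log ((N₀ : ℝ) + 2) ^ A := by gcongr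
      _ ≤ (2 * 2 ^ A + Real.log ((N₀ : ℝ) + 2) ^ A) * m := by
          have : (0 : ℝ) ≤ 2 * 2 ^ A * m := by positivity
          linarith

theorem harm_le (s : ℕ) (ℓ : ℝ) (h : 1 ≤ s → Real.log s ≤ ℓ) (hℓ : 0 ≤ ℓ) :
    ∑ a ∈ Ioc 0 s, (1 : ℝ) / a ≤ 1 + ℓ := by
  rcases Nat.eq_zero_or_pos s with rfl | hs
  · simp only [Ioc_self, sum_empty]
    linarith
  have e : ((harmonic s : ℚ) : ℝ) = ∑ i ∈ Ioc 0 s, (1 : ℝ) / i := by
    rw [harmonic_eq_sum_Icc]
    push_cast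
    refine sum_congr ?_ fun i _ => by rw [one_div]
    ext i; simp only [mem_Icc, mem_Ioc]; omega
  rw [← e]
  have h1 := harmonic_le_one_add_log s
  have h2 := h hs
  linarith

theorem M_of (h : Pool.Agent.H807R2.SWMu) : TaskM := by
  intro V
  obtain ⟨C, hC, hM⟩ := Mt_bound h (V + 1)
  refine ⟨10 * C * 2 ^ (V + 1), by positivity, fun y hy => ?_⟩
  obtain ⟨N, hN⟩ : ∃ N : ℕ, N = ⌊y⌋₊ := ⟨_, rfl⟩
  rw [← hN]
  have hNy : (N : ℝ) ≤ y := by rw [hN]; exact Nat.floor_le (by linarith)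
  have hyN : y < N + 1 := by rw [hN]; exact Nat.lt_floor_add_one y
  have hN1 : 1 ≤ N := by rw [hN]; exact Nat.le_floor (by exact_mod_cast hy)
  obtain ⟨s, hs⟩ : ∃ s : ℕ, s = Nat.sqrt N := ⟨_, rfl⟩
  have h1 : s * s ≤ N := by rw [hs]; exact Nat.sqrt_le N
  have h2 : N < (s + 1) * (s + 1) := by rw [hs]; exact Nat.lt_succ_sqrt N
  have hs1 : 1 ≤ s := by
    by_contra hc
    have : s = 0 := by omega
    rw [this] at h2
    omega
  set ℓ := Real.log (y + 1) with hℓ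
  have hℓ2 : Real.log 2 ≤ ℓ := Real.log_le_log (by norm_num) (by linarith)
  have hl2 : (1 / 2 : ℝ) < Real.log 2 := by linarith [Real.log_two_gt_d9]
  have hℓ0 : 0 < ℓ := by linarith
  have hlog : ∀ m : ℕ, s ≤ m → ℓ ≤ 2 * Real.log ((m : ℝ) + 2) := by
    intro m hm
    rw [← Real.log_rpow (by positivity)]
    apply Real.log_le_log (by linarith)
    have e : ((m : ℝ) + 2) ^ (2 : ℝ) = ((m : ℝ) + 2) ^ 2 := Real.rpow_two _
    rw [e]
    have h3 : (N : ℝ) + 1 ≤ ((s : ℝ) + 1) * ((s : ℝ) + 1) := by exact_mod_cast h2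
    have h4 : (s : ℝ) ≤ m := by exact_mod_cast hm
    nlinarith
  have hMm : ∀ m : ℕ, s ≤ m → |Mt m| ≤ C * 2 ^ (V + 1) * m / ℓ ^ (V + 1) := by
    intro m hm
    refine (hM m).trans ?_
    have h3 : 0 < Real.log ((m : ℝ) + 2) := by
      have := hlog m hm
      linarith
    rw [div_le_div_iff₀ (by positivity) (by positivity)]
    have h4 : ℓ ^ (V + 1) ≤ 2 ^ (V + 1) * Real.log ((m : ℝ) + 2) ^ (V + 1) := by
      rw [← mul_pow]
      exact pow_le_pow_left₀ hℓ0.le (hlog m hm) _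
    calc C * m * ℓ ^ (V + 1) ≤ C * m * (2 ^ (V + 1) * Real.log ((m : ℝ) + 2) ^ (V + 1)) := by
          gcongr
      _ = C * 2 ^ (V + 1) * m * Real.log ((m : ℝ) + 2) ^ (V + 1) := by ring
  have hsum : ∑ n ∈ Icc 1 N, mu2 n = 2 * ∑ a ∈ Ioc 0 s, mu a * Mt (N / a) - Mt s * Mt s := by
    have e1 : Icc 1 N = Ioc 0 N := by
      ext n
      simp only [mem_Icc, mem_Ioc]
      omega
    have e2 := Pool.Agent.H383.OM.Hyp.hyperbola mu mu N s s h1 h2
    rw [e1]
    unfold mu2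
    rw [e2]
    unfold Mt
    ring
  have hfirst : |∑ a ∈ Ioc 0 s, mu a * Mt (N / a)| ≤
      C * 2 ^ (V + 1) * y / ℓ ^ (V + 1) * (1 + ℓ) := by
    calc |∑ a ∈ Ioc 0 s, mu a * Mt (N / a)| ≤ ∑ a ∈ Ioc 0 s, |mu a * Mt (N / a)| :=
          abs_sum_le_sum_abs _ _
      _ ≤ ∑ a ∈ Ioc 0 s, C * 2 ^ (V + 1) * y / ℓ ^ (V + 1) * (1 / a) := by
          apply sum_le_sum
          intro a ha
          rw [mem_Ioc] at ha
          have ha0 : (0 : ℝ) < a := by exact_mod_cast ha.1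
          have h3 : s ≤ N / a := by
            rw [Nat.le_div_iff_mul_le ha.1]
            exact (Nat.mul_le_mul_left s ha.2).trans h1
          rw [abs_mul]
          calc |mu a| * |Mt (N / a)| ≤ 1 * |Mt (N / a)| :=
                mul_le_mul_of_nonneg_right (mu_abs a) (abs_nonneg _)
            _ = |Mt (N / a)| := one_mul _
            _ ≤ C * 2 ^ (V + 1) * ((N / a : ℕ) : ℝ) / ℓ ^ (V + 1) := hMm _ h3
            _ ≤ C * 2 ^ (V + 1) * (y / a) / ℓ ^ (V + 1) := by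
                have h4 : ((N / a : ℕ) : ℝ) ≤ y / a := by
                  refine Nat.cast_div_le.trans ?_
                  gcongr
                gcongr
            _ = C * 2 ^ (V + 1) * y / ℓ ^ (V + 1) * (1 / a) := by ring
      _ = C * 2 ^ (V + 1) * y / ℓ ^ (V + 1) * ∑ a ∈ Ioc 0 s, (1 : ℝ) / a := by rw [mul_sum]
      _ ≤ C * 2 ^ (V + 1) * y / ℓ ^ (V + 1) * (1 + ℓ) := by
          have h3 : ∑ a ∈ Ioc 0 s, (1 : ℝ) / a ≤ 1 + ℓ := by
            refine harm_le s ℓ (fun _ => ?_) hℓ0.le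
            apply Real.log_le_log (by exact_mod_cast hs1)
            have h5 : s ≤ s * s := Nat.le_mul_of_pos_left s hs1
            have h6 : (s : ℝ) ≤ N := by exact_mod_cast h5.trans h1
            linarith
          gcongr
  have hsecond : |Mt s * Mt s| ≤ C * 2 ^ (V + 1) * y / ℓ ^ (V + 1) := by
    rw [abs_mul]
    have h3 := hMm s le_rfl
    have h4 := Mt_triv s
    calc |Mt s| * |Mt s| ≤ (C * 2 ^ (V + 1) * s / ℓ ^ (V + 1)) * s :=
          mul_le_mul h3 h4 (abs_nonneg _) (by positivity)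
      _ = C * 2 ^ (V + 1) * (s * s) / ℓ ^ (V + 1) := by ring
      _ ≤ C * 2 ^ (V + 1) * y / ℓ ^ (V + 1) := by
          have h5 : (s : ℝ) * s ≤ y := by
            have : (s : ℝ) * s ≤ N := by exact_mod_cast h1
            linarith
          gcongr
  rw [hsum]
  have hfin : C * 2 ^ (V + 1) * y / ℓ ^ (V + 1) * (2 * (1 + ℓ) + 1) ≤
      10 * C * 2 ^ (V + 1) * y / ℓ ^ V := by
    have h3 : C * 2 ^ (V + 1) * y / ℓ ^ (V + 1) * (2 * (1 + ℓ) + 1) =
        C * 2 ^ (V + 1) * y / ℓ ^ V * ((2 * (1 + ℓ) + 1) / ℓ) := by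
      rw [pow_succ ℓ V]
      field_simp
    have h4 : (2 * (1 + ℓ) + 1) / ℓ ≤ 10 := by
      rw [div_le_iff₀ hℓ0]
      linarith
    rw [h3]
    calc C * 2 ^ (V + 1) * y / ℓ ^ V * ((2 * (1 + ℓ) + 1) / ℓ) ≤ C * 2 ^ (V + 1) * y / ℓ ^ V * 10 := by
          gcongr
      _ = 10 * C * 2 ^ (V + 1) * y / ℓ ^ V := by ring
  refine le_trans ?_ hfin
  calc |2 * ∑ a ∈ Ioc 0 s, mu a * Mt (N / a) - Mt s * Mt s| ≤
        |2 * ∑ a ∈ Ioc 0 s, mu a * Mt (N / a)| + |Mt s * Mt s| := abs_sub _ _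
    _ ≤ 2 * (C * 2 ^ (V + 1) * y / ℓ ^ (V + 1) * (1 + ℓ)) + C * 2 ^ (V + 1) * y / ℓ ^ (V + 1) := by
        rw [abs_mul, abs_of_pos (show (0 : ℝ) < 2 by norm_num)]
        gcongr
    _ = C * 2 ^ (V + 1) * y / ℓ ^ (V + 1) * (2 * (1 + ℓ) + 1) := by ring

end Pool.Agent.K1H8.AL
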